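import Pool.Agent.H234R3.Sph

/-!
A subset without closed geodesics may contain the image of a non-constant harmonic map from a
round sphere: the Veronese maps.

For `k ≥ 2` let `N` be the unit sphere of the Euclidean space of real `(k+1) × (k+1)` matrices
(identified with the Euclidean space with `(k+1)^2` coordinates), with its round metric, and let
`V` be the open subset of the matrices `A` with `trace (A ^ 3) > 0`. Every non-constant geodesic
of `N` passes through antipodal points `A` and `-A`, so `V` has no closed geodesics. But `V`
contains the image of the Veronese map `x ↦ √((k+1)/k) (x xᵀ - I / (k+1))`, a non-constant harmonic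
map from the round sphere `S^k`.
-/

set_option autoImplicit false

open scoped Manifold
open Pool.Agent.H234R3

namespace Pool.Agent.Results.MP_a699c4_gt.Veronese

theorem result (k : ℕ) (hk : 2 ≤ k) :
    ∃ (n : ℕ) (g : SphMetric k) (h : SphMetric n) (V : Set (Sph n)) (φ : Sph k → Sph n),
      IsRound g ∧ IsRound h ∧ IsOpen V ∧ NoClosedGeodesic h V ∧
      IsHarmonicMap g h φ ∧ (∃ x y, φ x ≠ φ y) ∧ ∀ x, φ x ∈ V :=
  veronese k hk

end Pool.Agent.Results.MP_a699c4_gt.Veronese
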